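import Mathlib
import Pool.Agent.Helper54.CC.Simplex

/-!
MP_176125_gt, partial answer to Q1: a compact convex set `K` in a real Hausdorff locally convex
space that is a Choquet simplex satisfies `nw(K) = nw(E(K))`, with no closedness, metrizability
or cardinality assumption on the set of extreme points.
-/

set_option autoImplicit false

namespace Pool.Agent.Results.MP_176125_gt.ChoquetSimplices

open Pool.Agent.Helper54.CC

theorem result :
    ∀ (E : Type) [AddCommGroup E] [Module ℝ E] [TopologicalSpace E]
      [IsTopologicalAddGroup E] [ContinuousSMul ℝ E] [LocallyConvexSpace ℝ E] [T2Space E]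
      (K : Set E), IsCompact K → Convex ℝ K → IsChoquetSimplex K →
      netWeight K = netWeight (Set.extremePoints ℝ K) := by
  intro E _ _ _ _ _ _ _ K hK hKc hS
  exact netWeight_simplex hK hKc hS

end Pool.Agent.Results.MP_176125_gt.ChoquetSimplices
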