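import Mathlib
import Pool.Agent.Helper54.CC.Lindelof

/-!
MP_176125_gt, partial answer to Q1: if the set of extreme points of a compact convex set `K` in a
real Hausdorff locally convex space is a Lindelof space, then `nw(K) = nw(E(K))`.
-/

set_option autoImplicit false

namespace Pool.Agent.Results.MP_176125_gt.LindelofExtreme

open Pool.Agent.Helper54.CC

theorem result :
    ∀ (E : Type) [AddCommGroup E] [Module ℝ E] [TopologicalSpace E]
      [IsTopologicalAddGroup E] [ContinuousSMul ℝ E] [LocallyConvexSpace ℝ E] [T2Space E]
      (K : Set E), IsCompact K → Convex ℝ K → IsLindelof (Set.extremePoints ℝ K) →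
      netWeight K = netWeight (Set.extremePoints ℝ K) := by
  intro E _ _ _ _ _ _ _ K hK hKc hL
  exact netWeight_lindelof hK hKc hL

end Pool.Agent.Results.MP_176125_gt.LindelofExtreme
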