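import Pool.Agent.Helper50.NW.Final
import Pool.Agent.Helper50.NW.NotPrecSucc

/-!
# For which `κ` does `nw(E(K)) = κ` imply `nw(K) = κ`?

For every infinite cardinal `κ` with `2^{<κ} = κ` (in particular for every strong limit cardinal) the
implication holds for all convex compacta if and only if the cofinality of `κ` is countable or is a
precaliber of all probability algebras. Consequently, a positive answer to Q1 implies that every
regular uncountable cardinal is a precaliber of all probability algebras, and that `2^l ≠ l⁺` for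
every strong limit cardinal `l` of countable cofinality (in particular CH fails).
-/

set_option autoImplicit false
open Cardinal

namespace Pool.Agent.Results.MP_176125_gt.MeasurePrecaliberIff

open Pool.Agent.Helper50.NW

theorem result :
    (∀ κ : Cardinal.{0}, ℵ₀ ≤ κ → 2 ^< κ = κ →
      ((∀ (E : Type) [AddCommGroup E] [Module ℝ E] [TopologicalSpace E]
          [IsTopologicalAddGroup E] [ContinuousSMul ℝ E] [LocallyConvexSpace ℝ E] [T2Space E]
          (K : Set E), IsCompact K → Convex ℝ K →
          netWeight (Set.extremePoints ℝ K) = κ → netWeight K = κ) ↔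
        (κ.ord.cof = ℵ₀ ∨ IsMeasurePrecaliber κ.ord.cof))) ∧
    ((∀ (E : Type) [AddCommGroup E] [Module ℝ E] [TopologicalSpace E]
        [IsTopologicalAddGroup E] [ContinuousSMul ℝ E] [LocallyConvexSpace ℝ E] [T2Space E]
        (K : Set E), IsCompact K → Convex ℝ K →
        netWeight K = netWeight (Set.extremePoints ℝ K)) →
      (∀ θ : Cardinal.{0}, θ.IsRegular → ℵ₀ < θ → IsMeasurePrecaliber θ) ∧
      (∀ l : Cardinal.{0}, l.IsStrongLimit → l.ord.cof = ℵ₀ → 2 ^ l ≠ Order.succ l)) := by
  have key : ∀ κ : Cardinal.{0}, ℵ₀ ≤ κ → 2 ^< κ = κ →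
      ((∀ (E : Type) [AddCommGroup E] [Module ℝ E] [TopologicalSpace E]
          [IsTopologicalAddGroup E] [ContinuousSMul ℝ E] [LocallyConvexSpace ℝ E] [T2Space E]
          (K : Set E), IsCompact K → Convex ℝ K →
          netWeight (Set.extremePoints ℝ K) = κ → netWeight K = κ) ↔
        (κ.ord.cof = ℵ₀ ∨ IsMeasurePrecaliber κ.ord.cof)) := by
    intro κ hκ h2
    constructor
    · intro h
      by_contra hcon
      push Not at hcon
      obtain ⟨hc1, hc2⟩ := hcon
      have hcof : ℵ₀ < κ.ord.cof := by
        refine lt_of_le_of_ne ?_ (Ne.symm hc1)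
        exact (Cardinal.isRegular_cof (Cardinal.isSuccLimit_ord hκ)).aleph0_le
      obtain ⟨V, i1, i2, i3, i4, i5, i6, i7, K, hK, hKc, h3, h4⟩ :=
        exists_counterexample_eq h2.le hcof hc2
      have := h V K hK hKc h3
      exact absurd this h4.ne'
    · intro h E _ _ _ _ _ _ _ K hK _ hE
      refine le_antisymm ?_ ?_
      · conv_rhs => rw [← h2]
        by_cases hc : κ.ord.cof = ℵ₀
        · exact netWeight_le_powerlt hK hc hE.le
        · have hcof : ℵ₀ < κ.ord.cof := by
            refine lt_of_le_of_ne ?_ (Ne.symm hc)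
            exact (Cardinal.isRegular_cof (Cardinal.isSuccLimit_ord hκ)).aleph0_le
          exact netWeight_le_powerlt_of_precaliber hK hcof (h.resolve_left hc) hE.le
      · rw [← hE]
        exact netWeight_mono extremePoints_subset
  refine ⟨key, fun h => ?_⟩
  have hall : ∀ θ : Cardinal.{0}, θ.IsRegular → ℵ₀ < θ → IsMeasurePrecaliber θ := ?_
  · refine ⟨hall, fun l hl hc h2 => ?_⟩
    exact not_isMeasurePrecaliber_succ hl hc h2
      (hall _ (Cardinal.isRegular_succ hl.aleph0_le) (Order.lt_succ_of_le hl.aleph0_le))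
  intro θ hθ hunc
  obtain ⟨κ, hκs, hκc⟩ := exists_strongLimit_cof hθ
  have h2 : 2 ^< κ = κ := by
    refine le_antisymm (Cardinal.powerlt_le.2 fun x hx => (hκs.isStrongPrelimit hx).le)
      (le_two_powerlt κ)
  have h3 := (key κ hκs.aleph0_le h2).1 (fun E _ _ _ _ _ _ _ K hK hKc hE => by
    rw [h E K hK hKc, hE])
  rw [hκc] at h3
  exact h3.resolve_left hunc.ne'

end Pool.Agent.Results.MP_176125_gt.MeasurePrecaliberIff
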