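import Pool.Agent.Helper50.NW.Final
import Pool.Agent.Helper24.NW2.Main

/-!
# Upper bounds for `nw(K)` in terms of `κ = nw(E(K))`
-/

set_option autoImplicit false
open Cardinal

namespace Pool.Agent.Results.MP_176125_gt.NetworkWeightBounds

open Pool.Agent.Helper50.NW Pool.Agent.Helper24.NW2

universe u

theorem result (E : Type u) [AddCommGroup E] [Module ℝ E] [TopologicalSpace E]
    [IsTopologicalAddGroup E] [ContinuousSMul ℝ E] [LocallyConvexSpace ℝ E] [T2Space E]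
    (K : Set E) (hK : IsCompact K) (_hconv : Convex ℝ K)
    (κ l : Cardinal.{u}) (hκ : netWeight (Set.extremePoints ℝ K) = κ)
    (h : (l = κ ∧ NoCover κ) ∨
      (∃ m : Cardinal.{u}, ℵ₀ ≤ m ∧ m ^ ℵ₀ = m ∧ κ ≤ 2 ^ m ∧ l = 2 ^ m) ∨
      (l = 2 ^< κ ∧ (κ.ord.cof = ℵ₀ ∨ (∀ ν < κ.ord.cof, ν ^ ℵ₀ < κ.ord.cof) ∨
        IsMeasurePrecaliber κ.ord.cof)) ∨
      (∃ m : Cardinal.{u}, κ = Order.succ m ∧ m.ord.cof = ℵ₀ ∧ IsMeasurePrecaliber κ ∧
        l = κ ⊔ 2 ^< m)) :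
    netWeight K ≤ l := by
  have hκ0 : ℵ₀ ≤ κ := hκ ▸ aleph0_le_netWeight _
  rcases h with ⟨rfl, h⟩ | ⟨m, hm0, hm, hle, rfl⟩ | ⟨rfl, h⟩ | ⟨m, rfl, hm, hp, rfl⟩
  · exact netWeight_le_of_noCover hK hκ0 h hκ.le
  · exact netWeight_le_two_pow hK hm hm0 (hκ.trans_le hle)
  · by_cases hc : κ.ord.cof = ℵ₀
    · exact netWeight_le_powerlt hK hc hκ.le
    · have hreg : (κ.ord.cof).IsRegular := Cardinal.isRegular_cof (Cardinal.isSuccLimit_ord hκ0)
      have hcof : ℵ₀ < κ.ord.cof := lt_of_le_of_ne hreg.aleph0_le (Ne.symm hc)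
      refine netWeight_le_powerlt_of_precaliber hK hcof ?_ hκ.le
      rcases h.resolve_left hc with h | h
      · exact isMeasurePrecaliber_of_pow_lt hreg h
      · exact h
  · exact netWeight_le_of_succ hK hm hp hκ.le

end Pool.Agent.Results.MP_176125_gt.NetworkWeightBounds
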